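import Mathlib
import Pool.Agent.Z894.CP.Stm

/-!
# Project CP, part 4: the statement over the residue field
-/

set_option autoImplicit false

open MvPolynomial

namespace Pool.Agent.Y146.CP

open Pool.Agent.TH922.KC Pool.Agent.Z894.CP

/-- the `p ^ i`-th powers of the elements of an intermediate field -/
def Fp {κ Ω : Type} [Field κ] [Field Ω] [Algebra κ Ω] [IsAlgClosed κ] (p : ℕ) [Fact p.Prime]
    [CharP Ω p] (F : IntermediateField κ Ω) (i : ℕ) : IntermediateField κ Ω where
  carrier := {a | ∃ b ∈ F, b ^ (p ^ i) = a}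
  mul_mem' := by
    rintro _ _ ⟨b, hb, rfl⟩ ⟨c, hc, rfl⟩
    exact ⟨b * c, mul_mem hb hc, mul_pow _ _ _⟩
  one_mem' := ⟨1, one_mem _, one_pow _⟩
  add_mem' := by
    rintro _ _ ⟨b, hb, rfl⟩ ⟨c, hc, rfl⟩
    exact ⟨b + c, add_mem hb hc, add_pow_char_pow _ _ _ _⟩
  zero_mem' := ⟨0, zero_mem _, zero_pow (pow_pos (Fact.out : p.Prime).pos i).ne'⟩
  algebraMap_mem' := by
    intro c
    obtain ⟨c', hc'⟩ := IsAlgClosed.exists_pow_nat_eq c (pow_pos (Fact.out : p.Prime).pos i)
    exact ⟨algebraMap κ Ω c', F.algebraMap_mem c', by rw [← map_pow, hc']⟩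
  inv_mem' := by
    rintro _ ⟨b, hb, rfl⟩
    exact ⟨b⁻¹, inv_mem hb, inv_pow _ _⟩

lemma mem_Fp {κ Ω : Type} [Field κ] [Field Ω] [Algebra κ Ω] [IsAlgClosed κ] {p : ℕ} [Fact p.Prime]
    [CharP Ω p] {F : IntermediateField κ Ω} {i : ℕ} {a : Ω} :
    a ∈ Fp p F i ↔ ∃ b ∈ F, b ^ (p ^ i) = a := Iff.rfl

lemma aeval_LF {κ Ω : Type} [Field κ] [Field Ω] [Algebra κ Ω] {n N : ℕ} {β : Type}
    (L : Fin N → Fin (n + 1) → κ) (x : Fin (n + 1) ⊕ β → Ω) (a : Fin N) :
    aeval x (LF L a : MvPolynomial (Fin (n + 1) ⊕ β) κ) =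
      ∑ j, algebraMap κ Ω (L a j) * x (Sum.inl j) := by
  simp [LF, map_sum]

lemma aeval_Psi {κ Ω : Type} [Field κ] [Field Ω] [Algebra κ Ω] {n : ℕ} {β Φ : Type}
    (e : Φ → ℕ) (cf : (Σ φ : Φ, It (Fin (n + 1)) (e φ)) → κ) (φ : Φ) (x : Fin (n + 1) ⊕ β → Ω) :
    aeval x (Pool.Agent.Z894.CP.Psi β e cf φ) = pv e cf (fun j => x (Sum.inl j)) φ := by
  simp [Pool.Agent.Z894.CP.Psi, pv]

lemma pv_div {κ Ω : Type} [Field κ] [Field Ω] [Algebra κ Ω] {n : ℕ} {Φ : Type}
    (e : Φ → ℕ) (cf : (Σ φ : Φ, It (Fin (n + 1)) (e φ)) → κ) (φ : Φ) (y : Fin (n + 1) → Ω)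
    (F : IntermediateField κ Ω) (j0 : Fin (n + 1)) (h0 : y j0 ≠ 0) (hF : ∀ j, y j / y j0 ∈ F) :
    pv e cf y φ / y j0 ^ e φ ∈ F := by
  unfold pv
  rw [Finset.sum_div]
  refine sum_mem fun μ _ => ?_
  have h1 : ∏ j, y j ^ (μ.1 j) = (∏ j, (y j / y j0) ^ (μ.1 j)) * y j0 ^ e φ := by
    have h2 : ∑ j, μ.1 j = e φ := by
      rw [← Finsupp.degree_eq_sum]
      exact μ.2
    have h3 : y j0 ^ e φ = ∏ j, y j0 ^ (μ.1 j) := by
      rw [Finset.prod_pow_eq_pow_sum, h2]
    rw [h3, ← Finset.prod_mul_distrib]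
    refine Finset.prod_congr rfl fun j _ => ?_
    rw [← mul_pow, div_mul_cancel₀ _ h0]
  rw [h1, ← mul_assoc, mul_div_cancel_right₀ _ (pow_ne_zero _ h0)]
  exact mul_mem (F.algebraMap_mem _) (prod_mem fun j _ => pow_mem (hF j) _)

lemma frac_aux {Ω : Type} [Field Ω] (a b c g : Ω) (hb : b ≠ 0) (hc : c ≠ 0) (hg : g ≠ 0) :
    a * b / (c * g) / (b / g) = a / c := by
  field_simp

theorem kappa_holds (h : PStep) : PKappa := by
  classical
  intro k0 κ _ _ _ _ p hpf _ n N B m s hs hnN hB hnm L0 hL0 blk β Φ _ _ _ e he grp fst hfst π hπ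
    hdeg cf hcf P hP hPp hPgr hblk hgrp hz
  have hp : p.Prime := Fact.out
  have hQ0 : 0 < p ^ s := pow_pos hp.pos s
  let F := FractionRing (MvPolynomial (Fin (n + 1) ⊕ β) κ ⧸ P)
  let Ω := AlgebraicClosure F
  let ψ : (MvPolynomial (Fin (n + 1) ⊕ β) κ ⧸ P) →ₐ[κ] Ω :=
    (IsScalarTower.toAlgHom κ F Ω).comp
      (IsScalarTower.toAlgHom κ (MvPolynomial (Fin (n + 1) ⊕ β) κ ⧸ P) F)
  have hψ : Function.Injective ψ := by
    intro a b hab
    have h1 : algebraMap F Ω (algebraMap _ F a) = algebraMap F Ω (algebraMap _ F b) := hab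
    exact IsFractionRing.injective (MvPolynomial (Fin (n + 1) ⊕ β) κ ⧸ P) F
      ((algebraMap F Ω).injective h1)
  have hcΩ : CharP Ω p := charP_of_injective_algebraMap (algebraMap κ Ω).injective p
  let x : Fin (n + 1) ⊕ β → Ω := fun v => ψ (Ideal.Quotient.mk P (X v))
  have hax : (aeval x : MvPolynomial (Fin (n + 1) ⊕ β) κ →ₐ[κ] Ω)
      = ψ.comp (Ideal.Quotient.mkₐ κ P) := by
    apply MvPolynomial.algHom_ext
    intro v
    rw [aeval_X]
    rfl
  have hker : RingHom.ker (aeval x : MvPolynomial (Fin (n + 1) ⊕ β) κ →ₐ[κ] Ω) = P := by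
    ext q
    rw [RingHom.mem_ker, hax]
    change ψ (Ideal.Quotient.mk P q) = 0 ↔ _
    rw [map_eq_zero_iff _ hψ, Ideal.Quotient.eq_zero_iff_mem]
  have hzero : ∀ q ∈ P, aeval x q = 0 := by
    intro q hq
    rw [← hker] at hq
    exact (RingHom.mem_ker).mp hq
  let y : Fin (n + 1) → Ω := fun j => x (Sum.inl j)
  let z : β → Ω := fun i => x (Sum.inr i)
  have hw : ∀ j, ∃ w : Ω, w ^ (p ^ s) = y j := fun j => IsAlgClosed.exists_pow_nat_eq (y j) hQ0
  choose w hw using hw
  have hxw : x = Sum.elim (fun j => w j ^ (p ^ s)) z := by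
    funext v
    rcases v with j | i
    · exact (hw j).symm
    · rfl
  choose D H hD hH hzH using hz
  have hLv : ∀ a, aeval x (LF (fun a j => algebraMap k0 κ (L0 a j)) a :
      MvPolynomial (Fin (n + 1) ⊕ β) κ) = lv (κ := κ) L0 y a := fun a => aeval_LF _ x a
  have hPv : ∀ φ, aeval x (Pool.Agent.Z894.CP.Psi β e cf φ) = pv e cf y φ := fun φ => aeval_Psi e cf φ x
  refine finish2 (κ := κ) (Ω := Ω) (y := w) (z := z) (e := D) hQ0 P hP
    (by rw [← hxw]; exact hker) hD ?_ ?_ hPgr
  · intro i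
    have h1 := hzero _ (hzH i)
    rw [map_sub, map_pow, aeval_X, sub_eq_zero, aeval_rename] at h1
    change z i ^ D i = _ at h1
    rw [h1]
    have h2 : (aeval (fun j : Fin (n + 1) => (X j : MvPolynomial (Fin (n + 1)) κ) ^ (p ^ s))
        (H i)).IsHomogeneous (p ^ s * D i) :=
      (hH i).aeval _ (fun j => by
        have := (isHomogeneous_X κ j).pow (p ^ s)
        rwa [one_mul] at this)
    have h3 := mem_Pc (κ := κ) (u := w) h2
    have h4 : aeval w (aeval (fun j : Fin (n + 1) => (X j : MvPolynomial (Fin (n + 1)) κ) ^ (p ^ s))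
        (H i)) = aeval (x ∘ Sum.inl) (H i) := by
      rw [← AlgHom.comp_apply]
      congr 1
      apply MvPolynomial.algHom_ext
      intro j
      rw [AlgHom.comp_apply, aeval_X, aeval_X, map_pow, aeval_X]
      exact hw j
    rw [h4] at h3
    exact h3
  · intro j0 hj0
    rw [← hxw]
    have hy0 : y j0 ≠ 0 := by rw [← hw j0]; exact pow_ne_zero _ hj0
    set R := RF κ x (Sum.inl j0) with hR
    have hyR : ∀ j, y j / y j0 ∈ R := fun j => ratio_mem x (Sum.inl j0) (Sum.inl j)
    have hzR : ∀ i, z i / y j0 ∈ R := fun i => ratio_mem x (Sum.inl j0) (Sum.inr i)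
    have hlR : ∀ a, lv (κ := κ) L0 y a / y j0 ∈ R := by
      intro a
      unfold lv
      rw [Finset.sum_div]
      refine sum_mem fun j _ => ?_
      rw [mul_div_assoc]
      exact mul_mem (R.algebraMap_mem _) (hyR j)
    have key : ∀ i, i ≤ s → ∀ j, y j / y j0 ∈ Fp p R i := by
      intro i
      induction i with
      | zero =>
        intro _ j
        exact ⟨_, hyR j, by rw [pow_zero, pow_one]⟩
      | succ i ih =>
        intro his j
        have ih' := ih (by omega)
        have hpow : ∀ u ∈ R, u ^ (p ^ (s - 1)) ∈ Fp p R i := by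
          intro u hu
          refine ⟨u ^ (p ^ (s - 1 - i)), pow_mem hu _, ?_⟩
          rw [← pow_mul, ← pow_add]
          congr 2
          omega
        have hps : p ^ (s - 1) * p = p ^ s := by
          rw [← pow_succ]
          congr 1
          omega
        obtain ⟨v, hv, hvp⟩ := h k0 κ Ω p n N B m hnN hB hnm L0 hL0 blk Φ e he grp cf hcf
          (Fp p R i) y j0 hy0 ih' (by
            intro a b hab ha hb
            by_cases hab' : a = b
            · subst hab'
              exact ⟨1, one_mem _, by rw [one_pow, div_self ha]⟩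
            · obtain ⟨t, ht⟩ := hblk a b hab' hab
              have h1 := hzero _ ht
              rw [map_sub, map_mul, map_pow, map_pow, aeval_X, hLv, hLv, sub_eq_zero] at h1
              change z t ^ (p ^ s) = _ at h1
              have hzt : z t ≠ 0 := by
                intro h0
                rw [h0, zero_pow hQ0.ne'] at h1
                exact (mul_ne_zero (pow_ne_zero _ ha) hb) h1.symm
              refine ⟨(lv (κ := κ) L0 y a / z t) ^ (p ^ (s - 1)), hpow _ ?_, ?_⟩
              · have h2 := mul_mem (hlR a) (inv_mem (hzR t))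
                rw [inv_div, div_mul_div_cancel₀ hy0] at h2
                exact h2
              · rw [← pow_mul, hps, div_pow, h1]
                have h3 : lv (κ := κ) L0 y a ^ (p ^ s) =
                    lv (κ := κ) L0 y a ^ (p ^ s - 1) * lv (κ := κ) L0 y a := by
                  rw [← pow_succ]
                  congr 1
                  omega
                rw [h3]
                exact mul_div_mul_left _ _ (pow_ne_zero _ ha)) (by
            intro c
            by_cases h0 : ∃ φ, grp φ = c ∧ pv e cf y φ = 0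
            · obtain ⟨φ, h1, h2⟩ := h0
              exact ⟨φ, h1, 0, zero_mem _, by rw [h2, zero_div, zero_pow hp.pos.ne']⟩
            · push Not at h0
              obtain ⟨t, ht⟩ := hgrp c
              have h1 := hzero _ ht
              rw [map_sub, map_mul, map_pow, aeval_X, hPv, map_prod, sub_eq_zero] at h1
              simp only [map_pow, hPv] at h1
              change z t ^ (p ^ s) = _ at h1
              set S := Finset.univ.filter (fun φ => grp φ = c ∧ φ ≠ fst c) with hS
              refine ⟨fst c, hfst c, (z t / y j0) ^ (p ^ (s - 1)) /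
                ∏ φ ∈ S, (pv e cf y φ / y j0 ^ e φ) ^ (π φ / p), ?_, ?_⟩
              · refine div_mem (hpow _ (hzR t)) (prod_mem fun φ _ => pow_mem ?_ _)
                exact pv_div e cf φ y (Fp p R i) j0 hy0 ih'
              · rw [div_pow, ← pow_mul, hps, ← Finset.prod_pow]
                have h2 : ∏ φ ∈ S, ((pv e cf y φ / y j0 ^ e φ) ^ (π φ / p)) ^ p =
                    (∏ φ ∈ S, pv e cf y φ ^ π φ) / ∏ φ ∈ S, y j0 ^ (π φ * e φ) := by
                  rw [← Finset.prod_div_distrib]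
                  refine Finset.prod_congr rfl fun φ hφ => ?_
                  rw [hS, Finset.mem_filter] at hφ
                  have h3 : p ∣ π φ := hπ φ (by rw [hφ.2.1]; exact hφ.2.2)
                  rw [← pow_mul, Nat.div_mul_cancel h3, div_pow, ← pow_mul, mul_comm (e φ)]
                rw [h2, div_pow, h1]
                have h4 : (∏ φ ∈ S, pv e cf y φ ^ π φ) ≠ 0 :=
                  Finset.prod_ne_zero_iff.mpr fun φ hφ => pow_ne_zero _ (h0 φ (by
                    rw [hS, Finset.mem_filter] at hφ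
                    exact hφ.2.1))
                have h5 : y j0 ^ (p ^ s) = y j0 ^ e (fst c) * ∏ φ ∈ S, y j0 ^ (π φ * e φ) := by
                  rw [Finset.prod_pow_eq_pow_sum, ← pow_add, hdeg c]
                have h6 : (∏ φ ∈ S, y j0 ^ (π φ * e φ)) ≠ 0 :=
                  Finset.prod_ne_zero_iff.mpr fun φ _ => pow_ne_zero _ hy0
                rw [h5]
                exact frac_aux _ _ _ _ h4 (pow_ne_zero _ hy0) h6) j
        obtain ⟨b, hb, rfl⟩ := hv
        refine ⟨b, hb, ?_⟩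
        rw [pow_succ, pow_mul]
        exact hvp
    intro j
    obtain ⟨b, hb, hbj⟩ := key s le_rfl j
    have h1 : (w j / w j0) ^ (p ^ s) = b ^ (p ^ s) := by
      rw [div_pow, hw, hw, hbj]
    have h2 : (w j / w j0 - b) ^ (p ^ s) = 0 := by
      rw [sub_pow_char_pow, h1, sub_self]
    have h3 := pow_eq_zero_iff hQ0.ne' |>.mp h2
    rw [sub_eq_zero.mp h3]
    exact hb

end Pool.Agent.Y146.CP
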